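import Mathlib
import Pool.Agent.N638.RO.Shift

/-!
The points of Moore's L space with the topologies given by half-open arcs.
-/

set_option autoImplicit false

namespace Pool.Agent.N638.RO

open Set Filter Topology
open Pool.Agent.Results.MP_b9a716_gt.MooreLSpace

/-- The sign of a boolean. -/
def sg (b : Bool) : ℝ := if b then 1 else -1

theorem sg_mul (b : Bool) : sg b * sg b = 1 := by cases b <;> simp [sg]

theorem abs_sg (b : Bool) : |sg b| = 1 := by cases b <;> simp [sg]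

/-- The half-open arc of length `ε` that begins at `0`, in the direction `b`. -/
def Arc (b : Bool) (ε : ℝ) : Set UnitAddCircle :=
  {a | ∃ t : ℝ, 0 ≤ t ∧ t < ε ∧ ((sg b * t : ℝ) : UnitAddCircle) = a}

theorem Arc.mono {b : Bool} {ε ε' : ℝ} (h : ε ≤ ε') : Arc b ε ⊆ Arc b ε' := by
  rintro a ⟨t, h0, h1, h2⟩
  exact ⟨t, h0, h1.trans_le h, h2⟩

theorem zero_mem_Arc {b : Bool} {ε : ℝ} (h : 0 < ε) : (0 : UnitAddCircle) ∈ Arc b ε :=
  ⟨0, le_rfl, h, by simp⟩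

theorem exists_rep (b : Bool) (a : UnitAddCircle) :
    ∃ t : ℝ, 0 ≤ t ∧ t < 1 ∧ ((sg b * t : ℝ) : UnitAddCircle) = a := by
  induction a using QuotientAddGroup.induction_on with
  | H x =>
    refine ⟨Int.fract (sg b * x), Int.fract_nonneg _, Int.fract_lt_one _, ?_⟩
    have h1 : sg b * Int.fract (sg b * x) = x - sg b * (⌊sg b * x⌋ : ℝ) := by
      have h2 := Int.self_sub_floor (sg b * x)
      rw [← h2, mul_sub, ← mul_assoc, sg_mul, one_mul]
    rw [h1]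
    have h3 : ∃ k : ℤ, sg b * (⌊sg b * x⌋ : ℝ) = k := by
      cases b
      · exact ⟨-⌊sg false * x⌋, by simp [sg]⟩
      · exact ⟨⌊sg true * x⌋, by simp [sg]⟩
    obtain ⟨k, hk⟩ := h3
    rw [hk]
    show ((x - k : ℝ) : UnitAddCircle) = (x : UnitAddCircle)
    rw [AddCircle.coe_sub, sub_eq_self]
    rw [AddCircle.coe_eq_zero_iff]
    exact ⟨k, by simp⟩

theorem rep_unique {b : Bool} {s t : ℝ} (hs : 0 ≤ s) (hs1 : s < 1) (ht : 0 ≤ t) (ht1 : t < 1)
    (h : ((sg b * s : ℝ) : UnitAddCircle) = ((sg b * t : ℝ) : UnitAddCircle)) : s = t := by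
  have h1 : ((sg b * s - sg b * t : ℝ) : UnitAddCircle) = 0 := by
    rw [AddCircle.coe_sub, h, sub_self]
  rw [AddCircle.coe_eq_zero_iff] at h1
  obtain ⟨n, hn⟩ := h1
  have h2 : (n : ℝ) = sg b * (s - t) := by
    rw [zsmul_one] at hn
    rw [hn]; ring
  have h3 : |(n : ℝ)| < 1 := by
    rw [h2, abs_mul, abs_sg, one_mul, abs_lt]
    constructor <;> linarith
  have h4 : n = 0 := by
    rw [← Int.abs_lt_one_iff]
    exact_mod_cast h3
  rw [h4] at h2
  have h5 : sg b * (sg b * (s - t)) = 0 := by rw [← h2]; simp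
  rw [← mul_assoc, sg_mul, one_mul] at h5
  linarith

theorem Arc_of_norm {b : Bool} {ε : ℝ} {a : UnitAddCircle}
    (h : ‖a - ((sg b * ε : ℝ) : UnitAddCircle)‖ < ε) : a ∈ Arc b (2 * ε) := by
  obtain ⟨r, hr⟩ : ∃ r : ℝ, (r : UnitAddCircle) = a - ((sg b * ε : ℝ) : UnitAddCircle) :=
    QuotientAddGroup.mk_surjective _
  rw [← hr, UnitAddCircle.norm_eq] at h
  refine ⟨ε + sg b * (r - round r), ?_, ?_, ?_⟩
  · have h1 : |sg b * (r - round r)| < ε := by rw [abs_mul, abs_sg, one_mul]; exact h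
    have := (abs_lt.1 h1).1
    linarith
  · have h1 : |sg b * (r - round r)| < ε := by rw [abs_mul, abs_sg, one_mul]; exact h
    have := (abs_lt.1 h1).2
    linarith
  · have h2 : sg b * (ε + sg b * (r - round r)) = sg b * ε + (r - round r) := by
      rw [mul_add, ← mul_assoc, sg_mul, one_mul]
    rw [h2, AddCircle.coe_add, AddCircle.coe_sub, hr]
    have h3 : ((round r : ℝ) : UnitAddCircle) = 0 := by
      rw [AddCircle.coe_eq_zero_iff]
      exact ⟨round r, by simp⟩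
    rw [h3]
    abel

/-- Arcs are open in the arc topology. -/
theorem Arc_open {b : Bool} {ε : ℝ} {a : UnitAddCircle} (h : a ∈ Arc b ε) :
    ∃ δ > 0, ∀ c, c - a ∈ Arc b δ → c ∈ Arc b ε := by
  obtain ⟨t, h0, h1, rfl⟩ := h
  refine ⟨ε - t, by linarith, ?_⟩
  rintro c ⟨u, hu0, hu1, hu⟩
  refine ⟨t + u, by linarith, by linarith, ?_⟩
  rw [mul_add, AddCircle.coe_add, hu]
  abel

/-- Arcs are closed in the arc topology. -/
theorem Arc_closed {b : Bool} {ε : ℝ} {a : UnitAddCircle} (h : a ∉ Arc b ε) :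
    ∃ δ > 0, ∀ c, c - a ∈ Arc b δ → c ∉ Arc b ε := by
  obtain ⟨t, h0, h1, rfl⟩ := exists_rep b a
  have ht : ε ≤ t := by
    by_contra hc
    exact h ⟨t, h0, not_le.1 hc, rfl⟩
  refine ⟨1 - t, by linarith, ?_⟩
  rintro c ⟨u, hu0, hu1, hu⟩ ⟨v, hv0, hv1, hv⟩
  have h2 : ((sg b * v : ℝ) : UnitAddCircle) = ((sg b * (t + u) : ℝ) : UnitAddCircle) := by
    rw [hv, mul_add, AddCircle.coe_add, hu]
    abel
  have h3 := rep_unique hv0 (by linarith) (by linarith) (by linarith) h2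
  linarith

theorem Arc_sep {b : Bool} {a : UnitAddCircle} (h : a ≠ 0) : ∃ n : ℕ, a ∉ Arc b (1 / ((n : ℝ) + 1)) := by
  obtain ⟨t, h0, h1, rfl⟩ := exists_rep b a
  have ht : 0 < t := by
    rcases h0.lt_or_eq with h2 | h2
    · exact h2
    · exfalso
      apply h
      rw [← h2]
      simp
  obtain ⟨n, hn⟩ := exists_nat_one_div_lt ht
  refine ⟨n, ?_⟩
  rintro ⟨v, hv0, hv1, hv⟩
  have h3 := rep_unique hv0 (by linarith) h0 h1 hv
  linarith

theorem Arc_inter {a : UnitAddCircle} (h1 : a ∈ Arc true (1 / 2)) (h2 : a ∈ Arc false (1 / 2)) :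
    a = 0 := by
  obtain ⟨t, h0, h1, rfl⟩ := h1
  obtain ⟨u, hu0, hu1, hu⟩ := h2
  have h3 : ((t + u : ℝ) : UnitAddCircle) = 0 := by
    rw [AddCircle.coe_add]
    have h4 : sg true * t = t := by simp [sg]
    have h5 : sg false * u = -u := by simp [sg]
    rw [h4, h5] at hu
    rw [← hu, AddCircle.coe_neg]
    abel
  rw [AddCircle.coe_eq_zero_iff] at h3
  obtain ⟨n, hn⟩ := h3
  rw [zsmul_one] at hn
  have h6 : |(n : ℝ)| < 1 := by
    rw [hn, abs_lt]
    constructor <;> linarith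
  have h7 : n = 0 := by
    rw [← Int.abs_lt_one_iff]
    exact_mod_cast h6
  rw [h7] at hn
  have h8 : t = 0 := by
    have : t + u = 0 := by rw [← hn]; simp
    linarith
  rw [h8]
  simp

variable {W : Type} [LinearOrder W] [OrderBot W] [WellFoundedLT W] [Om W]

/-- The basic neighbourhoods. -/
def Nh (z : W → UnitAddCircle) (s : Finset W) (n : ℕ) (x : W × Bool) : Set (W × Bool) :=
  {y | y.2 = x.2 ∧ ∀ ξ ∈ s, w z y.1 ξ - w z x.1 ξ ∈ Arc x.2 (1 / ((n : ℝ) + 1))}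

variable {z : W → UnitAddCircle}

theorem self_mem_Nh (s : Finset W) (n : ℕ) (x : W × Bool) : x ∈ Nh z s n x := by
  refine ⟨rfl, fun ξ _ => ?_⟩
  rw [sub_self]
  exact zero_mem_Arc (by positivity)

theorem one_div_mono {m n : ℕ} (h : m ≤ n) : 1 / ((n : ℝ) + 1) ≤ 1 / ((m : ℝ) + 1) := by
  apply one_div_le_one_div_of_le (by positivity)
  have : (m : ℝ) ≤ n := by exact_mod_cast h
  linarith

theorem Nh_mono {s t : Finset W} {m n : ℕ} (hst : s ⊆ t) (h : m ≤ n) (x : W × Bool) :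
    Nh z t n x ⊆ Nh z s m x := by
  rintro y ⟨h1, h2⟩
  exact ⟨h1, fun ξ hξ => Arc.mono (one_div_mono h) (h2 ξ (hst hξ))⟩

/-- The topology. -/
def top (z : W → UnitAddCircle) : TopologicalSpace (W × Bool) where
  IsOpen O := ∀ x ∈ O, ∃ (s : Finset W) (n : ℕ), Nh z s n x ⊆ O
  isOpen_univ := fun _ _ => ⟨∅, 0, Set.subset_univ _⟩
  isOpen_inter := by
    classical
    intro O O' h h' x hx
    obtain ⟨s, n, h1⟩ := h x hx.1
    obtain ⟨s', n', h2⟩ := h' x hx.2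
    exact ⟨s ∪ s', max n n', Set.subset_inter
      ((Nh_mono Finset.subset_union_left (le_max_left _ _) x).trans h1)
      ((Nh_mono Finset.subset_union_right (le_max_right _ _) x).trans h2)⟩
  isOpen_sUnion := by
    intro S hS x hx
    obtain ⟨O, hO, hxO⟩ := hx
    obtain ⟨s, n, h⟩ := hS O hO x hxO
    exact ⟨s, n, h.trans (Set.subset_sUnion_of_mem hO)⟩

theorem isOpen_iff {O : Set (W × Bool)} :
    IsOpen[top z] O ↔ ∀ x ∈ O, ∃ (s : Finset W) (n : ℕ), Nh z s n x ⊆ O := Iff.rfl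

theorem exists_small {s : Finset W} {δ : W → ℝ} (h : ∀ ξ, 0 < δ ξ) :
    ∃ n : ℕ, ∀ ξ ∈ s, 1 / ((n : ℝ) + 1) < δ ξ := by
  have h3 : ∀ ξ, ∃ n : ℕ, 1 / ((n : ℝ) + 1) < δ ξ := fun ξ => exists_nat_one_div_lt (h ξ)
  choose N hN using h3
  exact ⟨s.sup N, fun ξ hξ => lt_of_le_of_lt (one_div_mono (Finset.le_sup hξ)) (hN ξ)⟩

theorem Nh_open (s : Finset W) (n : ℕ) (x : W × Bool) : IsOpen[top z] (Nh z s n x) := by
  classical
  rw [isOpen_iff]
  rintro y ⟨h1, h2⟩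
  have h3 : ∀ ξ, ∃ δ > 0, ξ ∈ s → ∀ c, c - (w z y.1 ξ - w z x.1 ξ) ∈ Arc x.2 δ →
      c ∈ Arc x.2 (1 / ((n : ℝ) + 1)) := by
    intro ξ
    by_cases hξ : ξ ∈ s
    · obtain ⟨δ, hδ, h⟩ := Arc_open (h2 ξ hξ)
      exact ⟨δ, hδ, fun _ => h⟩
    · exact ⟨1, one_pos, fun h => absurd h hξ⟩
  choose δ hδ h using h3
  obtain ⟨m, hm⟩ := exists_small (s := s) hδ
  refine ⟨s, m, ?_⟩
  rintro y' ⟨h4, h5⟩
  refine ⟨h4.trans h1, fun ξ hξ => h ξ hξ _ ?_⟩
  have h6 := Arc.mono (hm ξ hξ).le (h5 ξ hξ)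
  rw [h1] at h6
  have h7 : w z y'.1 ξ - w z x.1 ξ - (w z y.1 ξ - w z x.1 ξ) = w z y'.1 ξ - w z y.1 ξ := by abel
  rw [h7]
  exact h6

theorem Nh_compl_open (s : Finset W) (n : ℕ) (x : W × Bool) : IsOpen[top z] (Nh z s n x)ᶜ := by
  rw [isOpen_iff]
  intro y hy
  by_cases h1 : y.2 = x.2
  · have h2 : ∃ ξ ∈ s, w z y.1 ξ - w z x.1 ξ ∉ Arc x.2 (1 / ((n : ℝ) + 1)) := by
      by_contra hc
      push Not at hc
      exact hy ⟨h1, hc⟩
    obtain ⟨ξ, hξ, h3⟩ := h2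
    obtain ⟨δ, hδ, h4⟩ := Arc_closed h3
    obtain ⟨m, hm⟩ := exists_nat_one_div_lt hδ
    refine ⟨{ξ}, m, ?_⟩
    rintro y' ⟨h5, h6⟩ ⟨-, h7⟩
    refine h4 _ ?_ (h7 ξ hξ)
    have h8 : w z y'.1 ξ - w z x.1 ξ - (w z y.1 ξ - w z x.1 ξ) = w z y'.1 ξ - w z y.1 ξ := by abel
    rw [h8, ← h1]
    exact Arc.mono hm.le (h6 ξ (Finset.mem_singleton_self ξ))
  · refine ⟨∅, 0, ?_⟩
    rintro y' ⟨h5, -⟩ ⟨h6, -⟩
    exact h1 (h5.symm.trans h6)

theorem exists_sep (hz : Kr z) {x y : W × Bool} (h : x ≠ y) : ∃ s n, y ∉ Nh z s n x := by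
  by_cases h1 : y.2 = x.2
  · have h2 : x.1 ≠ y.1 := fun h3 => h (Prod.ext h3 h1.symm)
    have h3 : w z x.1 ≠ w z y.1 := fun h4 => h2 (w_injective hz h4)
    obtain ⟨ξ, hξ⟩ := Function.ne_iff.1 h3
    obtain ⟨n, hn⟩ := Arc_sep (b := x.2) (a := w z y.1 ξ - w z x.1 ξ)
      (sub_ne_zero.2 (Ne.symm hξ))
    exact ⟨{ξ}, n, fun h5 => hn (h5.2 ξ (Finset.mem_singleton_self ξ))⟩
  · exact ⟨∅, 0, fun h5 => h1 h5.1⟩

/-- Zero-dimensionality gives complete regularity. -/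
theorem t35 (hz : Kr z) : @T35Space (W × Bool) (top z) := by
  letI := top z
  have hcr : CompletelyRegularSpace (W × Bool) := by
    constructor
    intro x K hK hx
    have h1 : IsOpen Kᶜ := hK.isOpen_compl
    obtain ⟨s, n, h2⟩ := isOpen_iff.1 h1 x hx
    classical
    have hcl : IsClopen (Nh z s n x)ᶜ :=
      ⟨⟨by rw [compl_compl]; exact Nh_open s n x⟩, Nh_compl_open s n x⟩
    have hf : Continuous (fun y : W × Bool => if y ∈ (Nh z s n x)ᶜ then (1 : unitInterval) else 0) := by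
      refine IsLocallyConstant.continuous ?_
      rw [IsLocallyConstant.iff_exists_open]
      intro y
      by_cases hy : y ∈ (Nh z s n x)ᶜ
      · refine ⟨(Nh z s n x)ᶜ, hcl.isOpen, hy, fun y' hy' => ?_⟩
        rw [if_pos hy, if_pos hy']
      · refine ⟨Nh z s n x, Nh_open s n x, not_not.1 hy, fun y' hy' => ?_⟩
        rw [if_neg hy, if_neg (show y' ∉ (Nh z s n x)ᶜ from fun h => h hy')]
    refine ⟨_, hf, ?_, ?_⟩
    · show (if x ∈ (Nh z s n x)ᶜ then (1 : unitInterval) else 0) = 0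
      rw [if_neg]
      exact fun h => h (self_mem_Nh s n x)
    · intro y hy
      show (if y ∈ (Nh z s n x)ᶜ then (1 : unitInterval) else 0) = 1
      rw [if_pos]
      intro h3
      exact h2 h3 hy
  have ht1 : T1Space (W × Bool) := by
    constructor
    intro x
    constructor
    rw [isOpen_iff]
    intro y hy
    obtain ⟨s, n, h⟩ := exists_sep (z := z) hz (x := y) (y := x) hy
    refine ⟨s, n, fun y' hy' h' => h ?_⟩
    have : y' = x := h'
    rw [← this]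
    exact hy'
  exact { }

end Pool.Agent.N638.RO
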