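import Mathlib
import Pool.Agent.N638.RO.Space

/-!
The space is hereditarily Lindelof and Rothberger, but some cover of it by open sets that covers
all finite sets has no countable subfamily of this kind.
-/

set_option autoImplicit false

namespace Pool.Agent.N638.RO

open Set Filter Topology
open Pool.Agent.Results.MP_b9a716_gt.MooreLSpace

variable {W : Type} [LinearOrder W] [OrderBot W] [WellFoundedLT W] [Om W]
variable {z : W → UnitAddCircle}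

/-- One direction. -/
theorem hl1 (hz : Kr z) (b : Bool) (Q : Set W) (s : W → Finset W) (n : W → ℕ) :
    ∃ Q₀ ⊆ Q, Q₀.Countable ∧ ∀ y ∈ Q, ∃ y' ∈ Q₀, ∀ ξ ∈ s y',
      w z y ξ - w z y' ξ ∈ Arc b (1 / ((n y' : ℝ) + 1)) := by
  by_contra hcon
  push Not at hcon
  have h1 : ∀ δ : W, ∃ y ∈ Q, ∀ y' ∈ Q, y' < δ → ∃ ξ ∈ s y',
      w z y ξ - w z y' ξ ∉ Arc b (1 / ((n y' : ℝ) + 1)) := by
    intro δ
    obtain ⟨y, hy, h⟩ := hcon {y' ∈ Q | y' < δ} (Set.sep_subset _ _)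
      ((Om.countable_Iio δ).mono fun y hy => hy.2)
    exact ⟨y, hy, fun y' h1 h2 => h y' ⟨h1, h2⟩⟩
  choose y hyQ hy using h1
  have h2 : ∀ δ, δ ≤ y δ := by
    intro δ
    by_contra h
    obtain ⟨ξ, -, hξ⟩ := hy δ (y δ) (hyQ δ) (not_le.1 h)
    rw [sub_self] at hξ
    exact hξ (zero_mem_Arc (by positivity))
  obtain ⟨δ, δ', -, h3, h4⟩ := shiftK hz y h2 (fun δ => s (y δ)) (fun δ => 2 * n (y δ) + 1)
    (fun k => ((sg b * (1 / ((k : ℝ) + 1)) : ℝ) : UnitAddCircle))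
  obtain ⟨ξ, hξ, h5⟩ := hy δ' (y δ) (hyQ δ) h3
  apply h5
  rcases h4 ξ hξ with h6 | h6
  · rw [h6, sub_self]
    exact zero_mem_Arc (by positivity)
  · have e1 : (((2 * n (y δ) + 1 : ℕ) : ℝ) + 1) = 2 * ((n (y δ) : ℝ) + 1) := by push_cast; ring
    have e2 : 1 / ((n (y δ) : ℝ) + 1) = 2 * (1 / (2 * ((n (y δ) : ℝ) + 1))) := by field_simp
    rw [e1] at h6
    rw [e2]
    apply Arc_of_norm
    rw [sub_sub]
    exact h6

/-- Both directions. -/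
theorem hl2 (hz : Kr z) (Q : Set (W × Bool)) (s : W × Bool → Finset W) (n : W × Bool → ℕ) :
    ∃ Q₀ ⊆ Q, Q₀.Countable ∧ ∀ y ∈ Q, ∃ y' ∈ Q₀, y ∈ Nh z (s y') (n y') y' := by
  have h := fun b : Bool => hl1 hz b {x | (x, b) ∈ Q} (fun x => s (x, b)) (fun x => n (x, b))
  choose Q₀ h1 h2 h3 using h
  refine ⟨⋃ b, (fun x => (x, b)) '' Q₀ b, ?_, Set.countable_iUnion fun b => (h2 b).image _, ?_⟩
  · refine Set.iUnion_subset fun b => ?_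
    rintro _ ⟨x, hx, rfl⟩
    exact h1 b hx
  · rintro ⟨x, b⟩ hy
    obtain ⟨x', hx', h⟩ := h3 b x hy
    exact ⟨(x', b), Set.mem_iUnion.2 ⟨b, x', hx', rfl⟩, rfl, h⟩

theorem isLindelof (hz : Kr z) (Q : Set (W × Bool)) : @IsLindelof _ (top z) Q := by
  letI := top z
  apply isLindelof_of_countable_subcover
  intro ι U hU hQ
  have h1 : ∀ y : W × Bool, ∃ (s : Finset W) (n : ℕ) (i : Option ι), y ∈ Q →
      ∃ j, i = some j ∧ Nh z s n y ⊆ U j := by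
    intro y
    by_cases hy : y ∈ Q
    · obtain ⟨j, hj⟩ := Set.mem_iUnion.1 (hQ hy)
      obtain ⟨s, n, h⟩ := isOpen_iff.1 (hU j) y hj
      exact ⟨s, n, some j, fun _ => ⟨j, rfl, h⟩⟩
    · exact ⟨∅, 0, none, fun h => absurd h hy⟩
  choose s n i h using h1
  obtain ⟨Q₀, h1, h2, h3⟩ := hl2 hz Q s n
  refine ⟨{j | some j ∈ i '' Q₀}, ?_, ?_⟩
  · exact (h2.image i).preimage_of_injOn (f := some) (Option.some_injective ι).injOn
  · intro y hy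
    obtain ⟨y', hy', h4⟩ := h3 y hy
    obtain ⟨j, hj, h5⟩ := h y' (h1 hy')
    exact Set.mem_iUnion₂.2 ⟨j, ⟨y', hy', hj⟩, h5 h4⟩

/-- Bounded coordinates take countably many values. -/
theorem classes (δ : W) : ∃ r : ℕ → W × Bool, ∀ x : W × Bool, ∃ k, x.2 = (r k).2 ∧
    ∀ ξ < δ, w z x.1 ξ = w z (r k).1 ξ := by
  have h1 : (Set.range fun β => cut δ fun ξ => cd ξ β).Countable := countable_cd δ
  have hc : Countable (Set.range fun β => cut δ fun ξ => cd ξ β) := h1.to_subtype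
  have h2 : ∀ g : (Set.range fun β => cut δ fun ξ => cd ξ β), ∃ y : W,
      (cut δ fun ξ => cd ξ y) = g.1 := fun g => g.2
  choose r hr using h2
  have hne : Nonempty (Set.range fun β => cut δ fun ξ => cd ξ β) := ⟨⟨_, ⊥, rfl⟩⟩
  obtain ⟨e, he⟩ := exists_surjective_nat ((Set.range fun β => cut δ fun ξ => cd ξ β) × Bool)
  refine ⟨fun k => (r (e k).1, (e k).2), fun x => ?_⟩
  obtain ⟨k, hk⟩ := he (⟨_, x.1, rfl⟩, x.2)
  have hk2 : (e k).2 = x.2 := by rw [hk]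
  refine ⟨k, hk2.symm, fun ξ hξ => ?_⟩
  have h3 := congrFun (hr (e k).1) ξ
  have h4 : (e k).1.1 = cut δ fun ξ => cd ξ x.1 := by rw [hk]
  rw [h4] at h3
  simp only [cut, if_pos hξ] at h3
  show cd ξ x.1 • z ξ = cd ξ (r (e k).1) • z ξ
  rw [h3]

theorem rothberger (hz : Kr z) (𝒰 : ℕ → Set (Set (W × Bool)))
    (h1 : ∀ n, ∀ U ∈ 𝒰 n, IsOpen[top z] U) (h2 : ∀ n, ⋃₀ 𝒰 n = Set.univ) :
    ∃ U : ℕ → Set (W × Bool), (∀ n, U n ∈ 𝒰 n) ∧ ⋃ n, U n = Set.univ := by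
  have h3 : ∀ (k : ℕ) (y : W × Bool), ∃ (s : Finset W) (n : ℕ) (V : Set (W × Bool)), V ∈ 𝒰 k ∧
      Nh z s n y ⊆ V := by
    intro k y
    have hy : y ∈ ⋃₀ 𝒰 k := by rw [h2 k]; trivial
    obtain ⟨V, hV, hyV⟩ := hy
    obtain ⟨s, n, h⟩ := isOpen_iff.1 (h1 k V hV) y hyV
    exact ⟨s, n, V, hV, h⟩
  choose s n V hV hs using h3
  have h4 := fun k => hl2 hz Set.univ (s k) (n k)
  choose Q hQ0 hQ hQc using h4
  obtain ⟨δ, hδ⟩ : ∃ δ : W, ∀ x ∈ ⋃ k, ⋃ y ∈ Q k, (↑(s k y) : Set W), x < δ :=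
    Om.bdd _ (Set.countable_iUnion fun k => (hQ k).biUnion fun y _ => (s k y).countable_toSet)
  obtain ⟨r, hr⟩ := classes (z := z) δ
  choose y hyQ hy using fun k => hQc k (r k) trivial
  refine ⟨fun k => V k (y k), fun k => hV _ _, ?_⟩
  rw [Set.eq_univ_iff_forall]
  intro x
  obtain ⟨k, hk1, hk2⟩ := hr x
  refine Set.mem_iUnion.2 ⟨k, hs k (y k) ⟨hk1.trans (hy k).1, fun ξ hξ => ?_⟩⟩
  have hξδ : ξ < δ := hδ ξ (Set.mem_iUnion.2 ⟨k, Set.mem_iUnion₂.2 ⟨y k, hyQ k, hξ⟩⟩)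
  rw [hk2 ξ hξδ]
  exact (hy k).2 ξ hξ

/-- The sets of the special cover. -/
def Sp (z : W → UnitAddCircle) (ξ : W) : Set (W × Bool) := {x | w z x.1 ξ ∈ Arc x.2 (1 / 2)}

theorem Sp_open (ξ : W) : IsOpen[top z] (Sp z ξ) := by
  rw [isOpen_iff]
  intro x hx
  obtain ⟨δ, hδ, h⟩ := Arc_open (show w z x.1 ξ ∈ Arc x.2 (1 / 2) from hx)
  obtain ⟨m, hm⟩ := exists_nat_one_div_lt hδ
  refine ⟨{ξ}, m, ?_⟩
  rintro y ⟨h1, h2⟩
  show w z y.1 ξ ∈ Arc y.2 (1 / 2)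
  rw [h1]
  exact h _ (Arc.mono hm.le (h2 ξ (Finset.mem_singleton_self ξ)))

theorem Sp_fin (hz : Kr z) (F : Finset (W × Bool)) : ∃ ξ, (F : Set (W × Bool)) ⊆ Sp z ξ := by
  obtain ⟨ξ, hξ⟩ := Om.bdd (Prod.fst '' (F : Set (W × Bool))) (F.countable_toSet.image _)
  refine ⟨ξ, fun x hx => ?_⟩
  show w z x.1 ξ ∈ Arc x.2 (1 / 2)
  rw [(w_eq_zero hz).2 (hξ x.1 ⟨x, hx, rfl⟩).le]
  exact zero_mem_Arc (by norm_num)

theorem Sp_pair (hz : Kr z) {ξ x : W} (h : ∀ b : Bool, (x, b) ∈ Sp z ξ) : x ≤ ξ :=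
  (w_eq_zero hz).1 (Arc_inter (h true) (h false))

theorem Sp_count (hz : Kr z) (ξ : ℕ → W) : ∃ x : W, ∀ n, ¬ ∀ b : Bool, (x, b) ∈ Sp z (ξ n) := by
  obtain ⟨x, hx⟩ := Om.bdd (Set.range ξ) (Set.countable_range ξ)
  exact ⟨x, fun n h => absurd (Sp_pair hz h) (not_le.2 (hx _ ⟨n, rfl⟩))⟩

end Pool.Agent.N638.RO
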